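import Pool.Agent.S13782

/-!
# MP_b2bcdc_gt: a core compact `T₀` space which is not a Rudin space

The definitions follow the text of the problem word by word. The space is `ω₁ × ℚ` with the
topology of `Pool.Agent.S13782`.
-/

set_option autoImplicit false

namespace Pool.Agent.Results.MP_b2bcdc_gt.CoreCompactNotRudin

open Set

/-- `V ≪ U`: every open cover of `U` has a finite subfamily covering `V`. -/
def WayBelow {X : Type} [TopologicalSpace X] (V U : Set X) : Prop :=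
  ∀ 𝒰 : Set (Set X), (∀ W ∈ 𝒰, IsOpen W) → U ⊆ ⋃₀ 𝒰 → ∃ 𝒱 ⊆ 𝒰, 𝒱.Finite ∧ V ⊆ ⋃₀ 𝒱

/-- Core compact: for each open `U` and each point `x` of `U` there is an open set `V` containing
`x` with `V ≪ U`. -/
def CoreCompact (X : Type) [TopologicalSpace X] : Prop :=
  ∀ U : Set X, IsOpen U → ∀ x ∈ U, ∃ V : Set X, IsOpen V ∧ x ∈ V ∧ WayBelow V U

/-- Saturated: an intersection of open sets. -/
def Saturated {X : Type} [TopologicalSpace X] (K : Set X) : Prop :=
  ∃ 𝒰 : Set (Set X), (∀ U ∈ 𝒰, IsOpen U) ∧ K = ⋂₀ 𝒰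

/-- The set `K(X)` of the nonempty compact saturated subsets of `X`. -/
def CompSat (X : Type) [TopologicalSpace X] : Set (Set X) :=
  {K | K.Nonempty ∧ IsCompact K ∧ Saturated K}

/-- Filtered: a nonempty family such that the intersection of any two members contains a
member. -/
def Filtered {X : Type} (𝒦 : Set (Set X)) : Prop :=
  𝒦.Nonempty ∧ ∀ K₁ ∈ 𝒦, ∀ K₂ ∈ 𝒦, ∃ K₃ ∈ 𝒦, K₃ ⊆ K₁ ∩ K₂

/-- Irreducible closed: closed, nonempty and not the union of two proper closed subsets. -/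
def IrrClosed {X : Type} [TopologicalSpace X] (A : Set X) : Prop :=
  IsClosed A ∧ A.Nonempty ∧ ¬ ∃ B C : Set X, IsClosed B ∧ IsClosed C ∧ B ⊂ A ∧ C ⊂ A ∧ A = B ∪ C

/-- Rudin set: a closed set `A` such that, for some filtered family `𝒦` of nonempty compact
saturated sets, `A` meets each member of `𝒦` and no closed proper subset of `A` does. -/
def RudinSet {X : Type} [TopologicalSpace X] (A : Set X) : Prop :=
  IsClosed A ∧ ∃ 𝒦 ⊆ CompSat X, Filtered 𝒦 ∧ (∀ K ∈ 𝒦, (A ∩ K).Nonempty) ∧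
    ¬ ∃ B : Set X, IsClosed B ∧ B ⊂ A ∧ ∀ K ∈ 𝒦, (B ∩ K).Nonempty

/-- Rudin space: each irreducible closed subset is a Rudin set. -/
def RudinSpace (X : Type) [TopologicalSpace X] : Prop :=
  ∀ A : Set X, IrrClosed A → RudinSet A

private theorem irr_univ : IrrClosed (univ : Set S13782.X) := by
  refine ⟨isClosed_univ, S13782.irreducible_univ.1, ?_⟩
  rintro ⟨B, C, hB, hC, hBu, hCu, h⟩
  obtain ⟨x, hx⟩ := nonempty_compl.2 (ssubset_univ_iff.1 hBu)
  obtain ⟨y, hy⟩ := nonempty_compl.2 (ssubset_univ_iff.1 hCu)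
  obtain ⟨z, -, hz⟩ := S13782.irreducible_univ.2 Bᶜ Cᶜ hB.isOpen_compl hC.isOpen_compl
    ⟨x, trivial, hx⟩ ⟨y, trivial, hy⟩
  have hzu : z ∈ B ∪ C := h ▸ mem_univ z
  rcases hzu with h1 | h1
  · exact hz.1 h1
  · exact hz.2 h1

private theorem comp_bdd (K : Set S13782.X) (hK : IsCompact K) :
    ∃ B : Set S13782.X, IsClosed B ∧ B ≠ univ ∧ K ⊆ B := by
  obtain ⟨g, hg⟩ := S13782.compact_bounded K hK
  refine ⟨{y : S13782.X | y.1 ≤ g}, S13782.isClosed_le g, ?_, fun y hy => hg y hy⟩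
  intro h
  obtain ⟨b, hb, _⟩ := S13782.exists_gt_two g g
  have h1 : ((b, 0) : S13782.X) ∈ {y : S13782.X | y.1 ≤ g} := by rw [h]; trivial
  exact absurd h1 (not_le.mpr hb)

private theorem card_X : Cardinal.mk S13782.X = Cardinal.aleph 1 := by
  have h : Cardinal.mk S13782.X = Cardinal.mk S13782.Z * Cardinal.mk ℚ := by
    rw [S13782.X, Cardinal.mk_prod, Cardinal.lift_id, Cardinal.lift_id]
  rw [h, Cardinal.mk_ord_toType, Cardinal.mkRat]
  exact Cardinal.mul_aleph0_eq Cardinal.aleph0_lt_aleph_one.le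

theorem _root_.Pool.Agent.Results.MP_b2bcdc_gt.CoreCompactNotRudin.result :
    ∃ (X : Type) (_ : TopologicalSpace X), T0Space X ∧ CoreCompact X ∧ ¬ RudinSpace X ∧
      Cardinal.mk X = Cardinal.aleph 1 ∧ IrrClosed (univ : Set X) ∧
      ∀ K : Set X, IsCompact K → ∃ B : Set X, IsClosed B ∧ B ≠ univ ∧ K ⊆ B := by
  refine ⟨S13782.X, inferInstance, inferInstance, ?_, ?_, card_X, irr_univ, comp_bdd⟩
  · intro U hU x hx
    obtain ⟨V, hV, hxV, _, h⟩ := S13782.core_compact U hU x hx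
    exact ⟨V, hV, hxV, h⟩
  · intro h
    obtain ⟨_, 𝒦, h𝒦, ⟨⟨K, hK⟩, hfil⟩, hmeet, hmin⟩ := h univ irr_univ
    obtain ⟨B, hB, hBu, hKB⟩ := comp_bdd K (h𝒦 hK).2.1
    refine hmin ⟨B, hB, ssubset_univ_iff.2 hBu, ?_⟩
    intro K' hK'
    obtain ⟨K'', hK'', hsub⟩ := hfil K hK K' hK'
    obtain ⟨y, _, hy⟩ := hmeet K'' hK''
    exact ⟨y, hKB (hsub hy).1, (hsub hy).2⟩

end Pool.Agent.Results.MP_b2bcdc_gt.CoreCompactNotRudin
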